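import Mathlib
import Pool.Agent.Helper74.Iso3.Defs3
import Pool.Agent.Helper10.Iso3.M1

/-!
# M2: the area formula in coordinates
-/

namespace Pool.Agent.Helper74.Iso3

open Module InnerProductSpace MeasureTheory Set Filter Topology
open Pool.Agent.Helper74.Iso Pool.Agent.Helper74.Iso2
open scoped ContDiff ENNReal

variable {E : Type*} [NormedAddCommGroup E] [InnerProductSpace ℝ E] [FiniteDimensional ℝ E]

omit [InnerProductSpace ℝ E] [FiniteDimensional ℝ E] in
/-- an integral formula from the formula for the measures of the images -/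
lemma integral_image_of_lintegral [MeasurableSpace E] [BorelSpace E] {X : Type*}
    [TopologicalSpace X] [PolishSpace X] [MeasurableSpace X] [BorelSpace X] {μ : Measure X}
    {m : Measure E} {ψ : X → E} {s : Set X} (hs : MeasurableSet s) (hψ : ContinuousOn ψ s)
    (hinj : InjOn ψ s) {J : X → ℝ} (hJ : AEMeasurable J (μ.restrict s)) (hJ0 : ∀ x ∈ s, 0 ≤ J x)
    (h : ∀ A ⊆ s, MeasurableSet A → m (ψ '' A) = ∫⁻ x in A, ENNReal.ofReal (J x) ∂μ) (g : E → ℝ) :
    ∫ y in ψ '' s, g y ∂m = ∫ x in s, J x * g (ψ x) ∂μ := by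
  have hemb : MeasurableEmbedding (s.domRestrict ψ) := hψ.measurableEmbedding hs hinj
  have hm : Measure.map (s.domRestrict ψ)
      (Measure.comap (↑) (μ.withDensity fun x => ENNReal.ofReal (J x))) = m.restrict (ψ '' s) := by
    ext A hA
    have hpre : MeasurableSet ((↑) '' (s.domRestrict ψ ⁻¹' A) : Set X) :=
      (MeasurableEmbedding.subtype_coe hs).measurableSet_image.2 (hemb.measurable hA)
    rw [hemb.map_apply, (MeasurableEmbedding.subtype_coe hs).comap_apply,
      withDensity_apply _ hpre, ← h _ (by rintro _ ⟨x, -, rfl⟩; exact x.2) hpre,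
      Measure.restrict_apply hA]
    congr 1
    ext y
    constructor
    · rintro ⟨_, ⟨x, hx, rfl⟩, rfl⟩
      exact ⟨hx, mem_image_of_mem _ x.2⟩
    · rintro ⟨hy, x, hx, rfl⟩
      exact ⟨x, ⟨⟨x, hx⟩, hy, rfl⟩, rfl⟩
  rw [← hm, hemb.integral_map]
  simp only [Set.domRestrict_apply, ← Function.comp_apply (f := g), ENNReal.ofReal]
  rw [← (MeasurableEmbedding.subtype_coe hs).integral_map, map_comap_subtype_coe hs,
    setIntegral_withDensity_eq_setIntegral_smul₀ hJ.real_toNNReal _ hs]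
  refine setIntegral_congr_fun hs fun x hx => ?_
  simp only [NNReal.smul_def, Real.coe_toNNReal _ (hJ0 x hx), smul_eq_mul, Function.comp_apply]

omit [FiniteDimensional ℝ E] in
lemma m2_jac_nonneg (u v : E) : 0 ≤ jac u v := Real.sqrt_nonneg _

omit [FiniteDimensional ℝ E] in
lemma continuous_jac' : Continuous (fun p : E × E => jac p.1 p.2) := by
  unfold jac
  fun_prop

/-- the linear equivalence of the Euclidean plane with `ℝ × ℝ` -/
noncomputable def planeEquiv : EuclideanSpace ℝ (Fin 2) ≃L[ℝ] ℝ × ℝ :=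
  (EuclideanSpace.equiv (Fin 2) ℝ).trans (ContinuousLinearEquiv.finTwoArrow ℝ ℝ)

lemma planeEquiv_apply (x : EuclideanSpace ℝ (Fin 2)) : planeEquiv x = (x 0, x 1) := rfl

lemma measurePreserving_planeEquiv : MeasurePreserving planeEquiv := by
  have h1 := (volume_preserving_finTwoArrow ℝ).comp (PiLp.volume_preserving_ofLp (Fin 2))
  exact h1

omit [FiniteDimensional ℝ E] in
lemma normDet_comp_planeEquiv (A : ℝ × ℝ →L[ℝ] E) :
    LinearMap.normDet ((A ∘L (planeEquiv : EuclideanSpace ℝ (Fin 2) →L[ℝ] ℝ × ℝ) :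
      EuclideanSpace ℝ (Fin 2) →L[ℝ] E) : EuclideanSpace ℝ (Fin 2) →ₗ[ℝ] E) =
      jac (A (1, 0)) (A (0, 1)) := by
  have h := LinearMap.normDet_sq_eq_det_gram
    ((A ∘L (planeEquiv : EuclideanSpace ℝ (Fin 2) →L[ℝ] ℝ × ℝ) :
      EuclideanSpace ℝ (Fin 2) →L[ℝ] E) : EuclideanSpace ℝ (Fin 2) →ₗ[ℝ] E)
    (EuclideanSpace.basisFun (Fin 2) ℝ)
  have h0 : planeEquiv (EuclideanSpace.single (0 : Fin 2) (1 : ℝ)) = (1, 0) := by
    rw [planeEquiv_apply]; simp
  have h1 : planeEquiv (EuclideanSpace.single (1 : Fin 2) (1 : ℝ)) = (0, 1) := by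
    rw [planeEquiv_apply]; simp
  rw [Matrix.det_fin_two] at h
  simp only [Matrix.gram_apply, EuclideanSpace.basisFun_apply, ContinuousLinearMap.coe_coe,
    ContinuousLinearMap.coe_comp, ContinuousLinearEquiv.coe_coe, Function.comp_apply, h0, h1,
    RCLike.ofReal_real_eq_id, id_eq] at h
  rw [real_inner_comm (A (1, 0)) (A (0, 1))] at h
  rw [jac, ← real_inner_self_eq_norm_sq, ← real_inner_self_eq_norm_sq, pow_two (inner ℝ _ _),
    ← h, Real.sqrt_sq (LinearMap.normDet_nonneg _)]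

theorem integral_surface [MeasurableSpace E] [BorelSpace E] {P : ℝ × ℝ → E} {Ω : Set (ℝ × ℝ)}
    (hΩ : IsOpen Ω) (hP : ContDiffOn ℝ 1 P Ω) (hinj : InjOn P Ω)
    (himm : ∀ k ∈ Ω, Function.Injective (fderiv ℝ P k)) {s : Set (ℝ × ℝ)} (hs : MeasurableSet s)
    (hsΩ : s ⊆ Ω) (g : E → ℝ) :
    ∫ x in P '' s, g x ∂μHE[2] = ∫ k in s, jac (d1 P k) (d2 P k) * g (P k) := by
  have hcd : ContinuousOn (fderiv ℝ P) Ω := hP.continuousOn_fderiv_of_isOpen hΩ le_rfl
  have hJc : ContinuousOn (fun k => jac (d1 P k) (d2 P k)) s := by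
    have h1 : ContinuousOn (fun k => ((d1 P k, d2 P k) : E × E)) s := by
      refine ContinuousOn.prodMk ?_ ?_
      · exact (hcd.mono hsΩ).clm_apply continuousOn_const
      · exact (hcd.mono hsΩ).clm_apply continuousOn_const
    exact continuous_jac'.comp_continuousOn h1
  refine integral_image_of_lintegral hs (hP.continuousOn.mono hsΩ) (hinj.mono hsΩ)
    (hJc.aemeasurable hs) (fun _ _ => m2_jac_nonneg _ _) ?_ g
  intro A hAs hA
  set L := planeEquiv with hL
  have hpre : L ⁻¹' A ⊆ L ⁻¹' Ω := preimage_mono (hAs.trans hsΩ)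
  have hdiff : ∀ k ∈ L ⁻¹' Ω, fderiv ℝ (P ∘ L) k =
      (fderiv ℝ P (L k)) ∘L (L : EuclideanSpace ℝ (Fin 2) →L[ℝ] ℝ × ℝ) := by
    intro k hk
    have hd : DifferentiableAt ℝ P (L k) :=
      (hP.contDiffAt (hΩ.mem_nhds hk)).differentiableAt (by simp)
    exact (hd.hasFDerivAt.comp k L.hasFDerivAt).fderiv
  have h := muHE_image_immersion (E := E) (F := EuclideanSpace ℝ (Fin 2)) (U := L ⁻¹' Ω)
    (hΩ.preimage L.continuous) (ψ := P ∘ L)
    (hP.comp L.contDiff.contDiffOn (fun _ h => h))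
    (hinj.comp L.injective.injOn (fun _ h => h))
    (fun k hk => by
      rw [hdiff k hk]
      exact (himm _ hk).comp L.injective)
    (s := L ⁻¹' A) (L.continuous.measurable hA) hpre
  rw [finrank_euclideanSpace_fin, image_comp, image_preimage_eq _ L.surjective] at h
  rw [h]
  rw [← (measurePreserving_planeEquiv).setLIntegral_comp_preimage_emb
    L.toHomeomorph.measurableEmbedding]
  refine setLIntegral_congr_fun (L.continuous.measurable hA) fun k hk => ?_
  rw [hdiff k (hpre hk), normDet_comp_planeEquiv]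
  rfl

theorem integral_curve [MeasurableSpace E] [BorelSpace E] {c : ℝ → E} {I : Set ℝ} (hI : IsOpen I)
    (hc : ContDiffOn ℝ 1 c I) (hinj : InjOn c I) (himm : ∀ t ∈ I, deriv c t ≠ 0) {s : Set ℝ}
    (hs : MeasurableSet s) (hsI : s ⊆ I) (g : E → ℝ) :
    ∫ x in c '' s, g x ∂μHE[1] = ∫ t in s, ‖deriv c t‖ * g (c t) := by
  have hcd : ContinuousOn (fderiv ℝ c) I := hc.continuousOn_fderiv_of_isOpen hI le_rfl
  have hJc : ContinuousOn (fun t => ‖deriv c t‖) s := by
    have h1 : ContinuousOn (fun t => fderiv ℝ c t 1) s :=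
      (hcd.mono hsI).clm_apply continuousOn_const
    exact h1.norm
  refine integral_image_of_lintegral hs (hc.continuousOn.mono hsI) (hinj.mono hsI)
    (hJc.aemeasurable hs) (fun _ _ => norm_nonneg _) ?_ g
  intro A hAs hA
  have hfd : ∀ t v, fderiv ℝ c t v = v • deriv c t := by
    intro t v
    rw [← fderiv_apply_one_eq_deriv, ← map_smul]; simp
  have h := muHE_image_immersion (E := E) (F := ℝ) hI hc hinj
    (fun t ht v w hvw => by
      rw [hfd, hfd] at hvw
      exact smul_left_injective ℝ (himm t ht) hvw) hA (hAs.trans hsI)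
  rw [finrank_self] at h
  rw [h]
  refine setLIntegral_congr_fun hA fun t _ => ?_
  have h2 := LinearMap.normDet_sq_eq_det_gram (fderiv ℝ c t : ℝ →ₗ[ℝ] E)
    (OrthonormalBasis.singleton Unit ℝ)
  congr 1
  have h3 : LinearMap.normDet (fderiv ℝ c t : ℝ →ₗ[ℝ] E) ^ 2 = ‖deriv c t‖ ^ 2 := by
    rw [Matrix.det_unique] at h2
    simp only [Matrix.gram_apply, OrthonormalBasis.singleton_apply, ContinuousLinearMap.coe_coe,
      RCLike.ofReal_real_eq_id, id_eq] at h2
    rw [h2, hfd, one_smul, real_inner_self_eq_norm_sq]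
  exact (pow_left_inj₀ (LinearMap.normDet_nonneg _) (norm_nonneg _) two_ne_zero).1 h3

end Pool.Agent.Helper74.Iso3
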